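import Pool.Agent.H35.NS2.All
import Pool.Agent.H93.G2.Smz
import Pool.Agent.H51.NS.Fin

/-!
# H35-NS2-FIN: the black boxes of stage 2, the P-level theorem and the universal upper bound for every prime (MP_b39724_nt)

* `gp2_all`, `bl2_all`, `apst2_all`, `plvt_all`: no hypothesis on the prime `p`.
* `nfs_all`: the asymptotic formula for nilpotent groups with a full series, all primes.
* `ub_all`: the upper bound up to `(log B)^δ` for EVERY nilpotent transitive group.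
-/

set_option autoImplicit false

open scoped NumberField
open IsDedekindDomain Filter Topology H38.ML
open scoped Classical

noncomputable section

namespace H35.NS2

open H38.ML H63.MA H38.BB H38.BG H57.PC H57.BRA H77.WD H77.PC3 H77.S0T H77.FLD H77.PLF H35.CF H35.UB
  H35.AC H51.AC2 H51.PF H24.RK H86.A2

theorem gp2_all {p : ℕ} (hp : p.Prime) : GP2 p := by
  by_cases h2 : p = 2
  · subst h2
    exact gp2_smx hp H93.G2.smx2
  · exact H62.BL.gp2 hp h2

theorem bl2_all {p : ℕ} (hp : p.Prime) : BL2 p := by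
  by_cases h2 : p = 2
  · subst h2
    exact bl2_smx hp H93.G2.smx2
  · exact H62.BL.bl2 hp h2

theorem apst2_all {p : ℕ} (hp : p.Prime) : APst2 p := by
  by_cases h2 : p = 2
  · subst h2
    exact apst2_smx hp H93.G2.smx2
  · exact H86.A2.apst2 hp h2

theorem plvt_all {p : ℕ} (hp : p.Prime) : PLvT p :=
  plvT hp (apst2_all hp) (bl2_all hp) (gp2_all hp)

/-- the upper bound up to `(log B)^δ` for EVERY nilpotent transitive group -/
theorem ub_all (n : ℕ) (hn : 2 ≤ n)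
    (G : Subgroup (Equiv.Perm (Fin n))) (hG : MulAction.IsPretransitive G (Fin n))
    (hnil : Group.IsNilpotent G) :
    ∃ m : ℕ, 0 < m ∧ ∀ K : IntermediateField ℚ (AlgebraicClosure ℚ), ∀ _ : NumberField K,
      (∃ z : K, IsPrimitiveRoot z m) → ∀ δ : ℝ, 0 < δ → ∃ C : ℝ, 0 < C ∧ ∀ B : ℝ, 3 ≤ B →
        Spec.nK K (AlgebraicClosure ℚ) G B ≤
          ((⌊C * (B ^ (1 / (Spec.indG G : ℝ)) *
            Real.log B ^ ((Spec.betaAll K (AlgebraicClosure ℚ) G : ℝ) - 1 + δ))⌋₊ : ℕ) : ℕ∞) := by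
  obtain ⟨-, ⟨g₀, hg₀, hi₀⟩, -, -, -⟩ := H38.BG.pidx_pos hn G hG
  have hpr := H38.ML.prime_of_least G g₀ hg₀ hi₀
  obtain ⟨m, hm, h⟩ := H35.UE.ube_of n hn G hG hnil (orderOf g₀) hpr (fun h hh => by
    rw [← H77.UX.trg hn hG hnil h g₀ hh.1 hg₀ hh.2 hi₀]
    exact pow_orderOf_eq_one h) (bl2_all hpr) (gp2_all hpr)
  refine ⟨m, hm, fun K _ hz δ hδ => ?_⟩
  obtain ⟨C, hC, h1⟩ := h K hz δ hδ
  refine ⟨C, hC, fun B hB => ?_⟩
  obtain ⟨k, hk, hk2⟩ := h1 B hB
  rw [hk]
  exact Nat.cast_le.2 (Nat.le_floor hk2)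

/-- the asymptotic formula for nilpotent groups with a full series, all primes -/
theorem nfs_all (n : ℕ) (hn : 2 ≤ n) (G : Subgroup (Equiv.Perm (Fin n)))
    (hG : MulAction.IsPretransitive G (Fin n)) (hnil : Group.IsNilpotent G) (hC : H51.NS.Cond G) :
    ∃ m : ℕ, 0 < m ∧ ∃ K₀ : IntermediateField ℚ (AlgebraicClosure ℚ), NumberField K₀ ∧
      ∀ K : IntermediateField ℚ (AlgebraicClosure ℚ), ∀ _ : NumberField K,
      (∃ z : K, IsPrimitiveRoot z m) →
        (K₀ ≤ K ∨ Spec.IsGaloisGroup K (AlgebraicClosure ℚ) G) →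
          (∀ B : ℝ, Spec.nK K (AlgebraicClosure ℚ) G B ≠ ⊤) ∧
          ∃ C : ℝ, 0 < C ∧ Filter.Tendsto
            (fun B : ℝ => ((Spec.nK K (AlgebraicClosure ℚ) G B).toNat : ℝ) /
              (B ^ (1 / (Spec.indG G : ℝ)) *
                Real.log B ^ (Spec.betaAll K (AlgebraicClosure ℚ) G - 1)))
            Filter.atTop (nhds C) :=
  H51.NS.ns_res n hn G hG hnil (fun _ hp _ => plvt_all hp) hC

end H35.NS2
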