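import Pool.Agent.H57.RN.Rec
import Pool.Agent.H19.AB.Leq

/-!
# H35-NS2-LO: the weights of the reciprocity law are `1`, all primes (MP_b39724_nt, `p = 2`)

As H86/A2/Lo.lean with `H57.RQ.N` for `H57.RQ`. `mone_pow`: `-1` is a `p ^ k`-th power if there are roots of unity of order `p ^ (k + 1)`.
-/

set_option autoImplicit false
set_option linter.dupNamespace false

open scoped NumberField
open IsDedekindDomain
open scoped Classical

noncomputable section

namespace H35.NS2

open H63.MA H38.BB H38.BG H57.PC H57.BRA H57.RQ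

/-- `-1` is a `p ^ k`-th power -/
theorem mone_pow {p k M : ℕ} (hp : p.Prime) (hM : k + 1 ≤ M) {K : Type} [Field K] {z : K}
    (hz : IsPrimitiveRoot z (p ^ M)) : MOne (p ^ k) K := by
  rcases hp.eq_two_or_odd' with h | h
  · subst h
    have h1 : IsPrimitiveRoot (z ^ 2 ^ (M - 1)) 2 := by
      refine hz.pow (pow_pos two_pos _) ?_
      rw [← pow_succ]
      congr 1
      omega
    refine ⟨z ^ 2 ^ (M - (k + 1)), ?_⟩
    rw [← h1.eq_neg_one_of_two_right, ← pow_mul, ← pow_add]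
    congr 2
    omega
  · exact ⟨-1, h.pow.neg_one_pow⟩

variable {K : Type} [Field K] [NumberField K] {p : ℕ}

private theorem unit1 {v : Pl K} {x : K} (h : v.valuation K (x - 1) < 1) :
    v.valuation K x = 1 := by
  have h1 := Valuation.map_one_add_of_lt (v := v.valuation K) (x := x - 1) h
  rwa [add_sub_cancel] at h1

private theorem mul1 {v : Pl K} {δ : WithZero (Multiplicative ℤ)} (hδ : δ ≤ 1) {x y : Kˣ}
    (hx : v.valuation K ((x : K) - 1) < δ) (hy : v.valuation K ((y : K) - 1) < δ) :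
    v.valuation K (((x * y : Kˣ) : K) - 1) < δ := by
  have h1 : ((x * y : Kˣ) : K) - 1 = ((x : K) - 1) * y + ((y : K) - 1) := by
    rw [Units.val_mul]
    ring
  rw [h1]
  refine lt_of_le_of_lt (Valuation.map_add _ _ _) (max_lt ?_ hy)
  rw [map_mul, unit1 (lt_of_lt_of_le hy hδ), mul_one]
  exact hx

private theorem inv1 {v : Pl K} {δ : WithZero (Multiplicative ℤ)} (hδ : δ ≤ 1) {x : Kˣ}
    (hx : v.valuation K ((x : K) - 1) < δ) : v.valuation K (((x⁻¹ : Kˣ) : K) - 1) < δ := by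
  have hx1 := unit1 (lt_of_lt_of_le hx hδ)
  have h1 : ((x⁻¹ : Kˣ) : K) - 1 = -(((x : K) - 1) * (x : K)⁻¹) := by
    rw [Units.val_inv_eq_inv_val]
    have := x.ne_zero
    field_simp
    ring
  rw [h1, Valuation.map_neg, map_mul, map_inv₀, hx1, inv_one, mul_one]
  exact hx

private theorem pow1 {v : Pl K} {δ : WithZero (Multiplicative ℤ)} (hδ : δ ≤ 1) {x : Kˣ}
    (hx : v.valuation K ((x : K) - 1) < δ) (n : ℕ) :
    v.valuation K (((x ^ n : Kˣ) : K) - 1) < δ := by
  have h0 : (0 : WithZero (Multiplicative ℤ)) < δ := lt_of_le_of_lt zero_le hx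
  induction n with
  | zero =>
    rw [pow_zero, Units.val_one, sub_self, map_zero]
    exact h0
  | succ n ih =>
    rw [pow_succ]
    exact mul1 hδ ih hx

private theorem pn1 (v : Pl K) (n : ℕ) : v.valuation K ((p : K) ^ n) ≤ 1 := by
  have h1 : algebraMap (𝓞 K) K ((p : 𝓞 K) ^ n) = (p : K) ^ n := by
    rw [map_pow, map_natCast]
  rw [← h1]
  exact v.valuation_le_one _

theorem prim_pk (hp : p.Prime) {c : Kˣ} (hc : Prim p c) : Pk p 1 c := by
  have hpK : (p : K) ≠ 0 := by exact_mod_cast hp.ne_zero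
  choose y hy using hc
  obtain ⟨x, hx⟩ := weak_approx (finite_above (K := K) hp.ne_zero).toFinset
    (fun v => if h : Above p v then y v h else 1) (fun v => v.valuation K ((p : K) ^ 2)) (by
      intro v _
      rw [Valuation.ne_zero_iff]
      exact pow_ne_zero 2 hpK)
  have h1 : Dp p (1 + 1) (c * (x ^ p)⁻¹) := by
    intro v hv
    have h2 := hx v ((finite_above (K := K) hp.ne_zero).mem_toFinset.2 hv)
    rw [dif_pos hv] at h2
    have h3 := inv1 (pn1 v 2) (pow1 (pn1 v 2) h2 p)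
    have h4 := mul1 (pn1 v 2) (hy v hv) h3
    have e : c * (y v hv ^ p)⁻¹ * ((x * (y v hv)⁻¹) ^ p)⁻¹ = c * (x ^ p)⁻¹ := by
      rw [mul_pow, mul_inv, inv_pow, inv_inv, mul_comm ((x ^ p)⁻¹), mul_assoc,
        inv_mul_cancel_left]
    rw [e] at h4
    exact h4
  have h2 := N.dpn hp h1
  have h3 : Pk p 1 (x ^ p) := by
    intro v _ n
    refine ⟨x, ?_⟩
    rw [pow_one, mul_inv_cancel, Units.val_one, sub_self, map_zero, zero_lt_iff,
      Valuation.ne_zero_iff]
    exact pow_ne_zero n hpK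
  have h4 := pk_mul hp h2 h3
  rwa [inv_mul_cancel_right] at h4

theorem isrec_one (hp : p.Prime) (hM1 : MOne p K) {ζ : K} (hζ : IsPrimitiveRoot ζ p) :
    IsRec p ζ fun v => if Above p v then 0 else 1 := by
  refine ⟨fun v hv => if_pos hv, fun c hc x => ?_, fun c hc hn => ?_⟩
  · refine Eq.trans (finsum_congr fun v => ?_) (N.ro hp K ζ hζ hM1 c (prim_pk hp hc) x)
    unfold b1
    by_cases hv : Above p v
    · rw [if_pos hv, if_pos hv, zero_mul]
    · rw [if_neg hv, if_neg hv, one_mul]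
  · obtain ⟨lam, hlam⟩ := exists_rec hp hM1 hζ
    obtain ⟨v, h1, h2⟩ := hlam.non c hc hn
    have hv : ¬ Above p v := fun h => h1 (hlam.above v h)
    refine ⟨v, ?_, h2⟩
    have : Fact p.Prime := ⟨hp⟩
    beta_reduce
    rw [if_neg hv]
    exact one_ne_zero

theorem lam_all {Ω : Type} [Field Ω] [Algebra K Ω] [IsAlgClosure K Ω] (hp : p.Prime)
    (hM1 : MOne p K) {ζ : K} (hζ : IsPrimitiveRoot ζ p) (hz : Z2 p K)
    (D : RD K p ζ) (L : LDs D.toRD0 Ω) (Q : DP K Ω) (Fr : FR L) :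
    ∀ v, v ∉ D.S0 → D.lam v = 1 := by
  intro v hv
  have h := Pool.Agent.H19.AB.lam_eq hp hM1 hζ hz D L Q Fr
    (isrec_one hp hM1 hζ) (fun w hw => if_neg fun h => hw.1 (D.above w h)) hv
  rw [← h]
  exact if_neg fun h => hv (D.above v h)

end H35.NS2
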