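import Pool.Agent.H35.NS2.Lo
import Pool.Agent.H35.UE.Lit
import Pool.Agent.H86.A2.Bx2
import Pool.Agent.H57.G2.Gp2

/-!
# H35-NS2-ALL: the P-level theorem of stage 2 for every prime, from the small part `SMX p` of the gap principle (MP_b39724_nt)

* `gp2_smx`, `bl2_smx`, `bx_smx`, `apst2_smx`, `plvt_smx`: the black boxes and the chapters for every prime `p`.
* `ube_smx`: the upper bound up to `(log B)^δ` for every prime.
-/

set_option autoImplicit false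

open scoped NumberField
open IsDedekindDomain Filter Topology H38.ML
open scoped Classical

noncomputable section

namespace H35.NS2

open H38.ML H63.MA H38.BB H38.BG H57.PC H57.BRA H77.WD H77.PC3 H77.S0T H77.FLD H77.PLF H35.CF H35.UB
  H35.AC H51.AC2 H51.PF H24.RK H86.A2

theorem gp2_smx {p : ℕ} (hp : p.Prime) (hs : H57.GP.Q.E.SMX p) : GP2 p :=
  H57.GP.Q.E.gp2_of hp hs

theorem bl2_smx {p : ℕ} (hp : p.Prime) (hs : H57.GP.Q.E.SMX p) : BL2 p :=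
  H62.BL.bl2_of hp (gp2_smx hp hs)

theorem bx_smx {p : ℕ} (hp : p.Prime) (hs : H57.GP.Q.E.SMX p) : BX p :=
  H86.A2.bx_of hp hs

theorem apst2_smx {p : ℕ} (hp : p.Prime) (hs : H57.GP.Q.E.SMX p) : APst2 p :=
  apst2_of hp (bx_smx hp hs)

theorem plvt_smx {p : ℕ} (hp : p.Prime) (hs : H57.GP.Q.E.SMX p) : PLvT p :=
  plvT hp (apst2_smx hp hs) (bl2_smx hp hs) (gp2_smx hp hs)

/-- the upper bound for every nilpotent group whose least index elements have order `p` -/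
theorem ube_smx (n : ℕ) (hn : 2 ≤ n) (G : Subgroup (Equiv.Perm (Fin n)))
    (hG : MulAction.IsPretransitive G (Fin n)) (hnil : Group.IsNilpotent G) (p : ℕ)
    (hp : p.Prime) (hs : H57.GP.Q.E.SMX p) (hI : ∀ h ∈ H51.PF.Li G, h ^ p = 1) :
    ∃ m : ℕ, 0 < m ∧ ∀ (K : IntermediateField ℚ (AlgebraicClosure ℚ)) [NumberField K],
      (∃ z : K, IsPrimitiveRoot z m) → ∀ δ : ℝ, 0 < δ → ∃ C : ℝ, 0 < C ∧ ∀ B : ℝ, 3 ≤ B →
        ∃ k : ℕ, Spec.nK K (AlgebraicClosure ℚ) G B = (k : ℕ∞) ∧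
          (k : ℝ) ≤ C * (B ^ (1 / (Spec.indG G : ℝ)) *
            Real.log B ^ ((Spec.betaAll K (AlgebraicClosure ℚ) G : ℝ) - 1 + δ)) :=
  H35.UE.ube_of n hn G hG hnil p hp hI (bl2_smx hp hs) (gp2_smx hp hs)

/-- the upper bound for EVERY nilpotent group -/
theorem ub_every (hs : ∀ p : ℕ, p.Prime → H57.GP.Q.E.SMX p) (n : ℕ) (hn : 2 ≤ n)
    (G : Subgroup (Equiv.Perm (Fin n))) (hG : MulAction.IsPretransitive G (Fin n))
    (hnil : Group.IsNilpotent G) :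
    ∃ m : ℕ, 0 < m ∧ ∀ K : IntermediateField ℚ (AlgebraicClosure ℚ), ∀ _ : NumberField K,
      (∃ z : K, IsPrimitiveRoot z m) → ∀ δ : ℝ, 0 < δ → ∃ C : ℝ, 0 < C ∧ ∀ B : ℝ, 3 ≤ B →
        Spec.nK K (AlgebraicClosure ℚ) G B ≤
          ((⌊C * (B ^ (1 / (Spec.indG G : ℝ)) *
            Real.log B ^ ((Spec.betaAll K (AlgebraicClosure ℚ) G : ℝ) - 1 + δ))⌋₊ : ℕ) : ℕ∞) := by
  obtain ⟨-, ⟨g₀, hg₀, hi₀⟩, -, -, -⟩ := H38.BG.pidx_pos hn G hG
  have hpr := H38.ML.prime_of_least G g₀ hg₀ hi₀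
  obtain ⟨m, hm, h⟩ := ube_smx n hn G hG hnil (orderOf g₀) hpr (hs _ hpr) (fun h hh => by
    rw [← H77.UX.trg hn hG hnil h g₀ hh.1 hg₀ hh.2 hi₀]
    exact pow_orderOf_eq_one h)
  refine ⟨m, hm, fun K _ hz δ hδ => ?_⟩
  obtain ⟨C, hC, h1⟩ := h K hz δ hδ
  refine ⟨C, hC, fun B hB => ?_⟩
  obtain ⟨k, hk, hk2⟩ := h1 B hB
  rw [hk]
  exact Nat.cast_le.2 (Nat.le_floor hk2)

end H35.NS2
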